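import Pool.Agent.Helper887.HarmInv

set_option autoImplicit false

namespace Pool.Agent.Helper887.HarmInv

open MvPolynomial

/-! ### Action of diagonal matrices and of a transposition on coefficients -/

section coeffs

variable {n : ℕ}

theorem T_diag_monomial (ε : Fin n → ℝ) (s : Fin n →₀ ℕ) (c : ℝ) :
    T (Matrix.diagonal ε) (monomial s c) = monomial s ((∏ j, ε j ^ s j) * c) := by
  have hX : ∀ i, T (Matrix.diagonal ε) (X i) = C (ε i) * X i := by
    intro i
    rw [T_X, Finset.sum_eq_single i]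
    · rw [Matrix.diagonal_apply_eq]
    · intro b _ hb
      rw [Matrix.diagonal_apply_ne _ (Ne.symm hb), C_0, zero_mul]
    · intro h; exact absurd (Finset.mem_univ i) h
  rw [monomial_eq, map_mul, monomial_eq, Finsupp.prod_fintype _ _ (fun i => pow_zero _), map_prod]
  have hC : T (Matrix.diagonal ε) (C c) = C c := (T (Matrix.diagonal ε)).commutes _
  rw [hC, C_mul, map_prod]
  simp only [map_pow, hX, mul_pow, Finset.prod_mul_distrib]
  ring

theorem coeff_T_diag (ε : Fin n → ℝ) (s : Fin n →₀ ℕ) (p : MvPolynomial (Fin n) ℝ) :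
    coeff s (T (Matrix.diagonal ε) p) = (∏ j, ε j ^ s j) * coeff s p := by
  classical
  induction p using MvPolynomial.induction_on' with
  | add a b ha hb => rw [map_add, coeff_add, coeff_add, ha, hb, mul_add]
  | monomial t c =>
    rw [T_diag_monomial, coeff_monomial, coeff_monomial]
    split_ifs with h
    · rw [h]
    · rw [mul_zero]

/-- Matrix of the coordinate permutation `e`. -/
def P (e : Equiv.Perm (Fin n)) : Matrix (Fin n) (Fin n) ℝ := fun i j => if j = e i then 1 else 0

theorem T_P (e : Equiv.Perm (Fin n)) (p : MvPolynomial (Fin n) ℝ) :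
    T (P e) p = rename e p := by
  have : T (P e) = rename e := by
    apply MvPolynomial.algHom_ext
    intro i
    rw [T_X, rename_X, Finset.sum_eq_single (e i)]
    · simp [P]
    · intro b _ hb
      simp [P, hb]
    · intro h; exact absurd (Finset.mem_univ (e i)) h
  rw [this]

theorem coeff_T_P (e : Equiv.Perm (Fin n)) (s : Fin n →₀ ℕ) (p : MvPolynomial (Fin n) ℝ) :
    coeff (s.mapDomain e) (T (P e) p) = coeff s p := by
  rw [T_P, coeff_rename_mapDomain _ e.injective]

end coeffs

/-! ### A dimension count by coefficients -/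

theorem finrank_eq_card {n : ℕ} {ι : Type*} [Finite ι] (V : Submodule ℝ (MvPolynomial (Fin n) ℝ))
    (φ : ι → (Fin n →₀ ℕ)) (inj : ∀ p ∈ V, (∀ i, coeff (φ i) p = 0) → p = 0)
    (w : ι → MvPolynomial (Fin n) ℝ) (hw : ∀ i, w i ∈ V) (hw1 : ∀ i, coeff (φ i) (w i) ≠ 0)
    (hw0 : ∀ i j, j ≠ i → coeff (φ j) (w i) = 0) :
    Module.finrank ℝ ↥V = Nat.card ι := by
  classical
  have := Fintype.ofFinite ι
  let L : ↥V →ₗ[ℝ] (ι → ℝ) :=
    { toFun := fun p i => coeff (φ i) p.1
      map_add' := fun p q => by funext i; simp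
      map_smul' := fun c p => by funext i; simp }
  have hinj : Function.Injective L := by
    rw [injective_iff_map_eq_zero]
    intro p hp
    exact Subtype.ext (inj p.1 p.2 fun i => congrFun hp i)
  have hsurj : Function.Surjective L := by
    intro c
    refine ⟨∑ i, (c i / coeff (φ i) (w i)) • (⟨w i, hw i⟩ : ↥V), ?_⟩
    funext j
    change coeff (φ j) (∑ i, (c i / coeff (φ i) (w i)) • (⟨w i, hw i⟩ : ↥V) : ↥V).1 = c j
    rw [AddSubmonoidClass.coe_finsetSum, coeff_sum, Finset.sum_eq_single j]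
    · change coeff (φ j) ((c j / coeff (φ j) (w j)) • w j) = c j
      rw [coeff_smul, smul_eq_mul, div_mul_cancel₀ _ (hw1 j)]
    · intro b _ hb
      change coeff (φ j) ((c b / coeff (φ b) (w b)) • w b) = 0
      rw [coeff_smul, hw0 b j (Ne.symm hb), smul_zero]
    · intro h; exact absurd (Finset.mem_univ j) h
  rw [LinearEquiv.finrank_eq (LinearEquiv.ofBijective L ⟨hinj, hsurj⟩),
    Module.finrank_fintype_fun_eq_card, Nat.card_eq_fintype_card]

/-! ### Finiteness of groups of integral orthogonal matrices -/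

theorem abs_entry_le {n : ℕ} (g : Matrix.orthogonalGroup (Fin n) ℝ) (i j : Fin n) :
    |g.1 i j| ≤ 1 := by
  have hg : g.1 * (g.1).transpose = 1 := by
    have := (Matrix.mem_orthogonalGroup_iff (Fin n) ℝ).mp g.2
    simpa using this
  have h1 := congrFun (congrFun hg i) i
  rw [Matrix.mul_apply, Matrix.one_apply_eq] at h1
  have h2 : g.1 i j * (g.1).transpose j i ≤ ∑ k, g.1 i k * (g.1).transpose k i :=
    Finset.single_le_sum (f := fun k => g.1 i k * (g.1).transpose k i)
      (fun k _ => by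
        rw [Matrix.transpose_apply]
        exact mul_self_nonneg _) (Finset.mem_univ j)
  rw [h1, Matrix.transpose_apply] at h2
  exact abs_le_one_iff_mul_self_le_one.mpr h2

theorem finite_of_int {n : ℕ} (Γ : Subgroup (Matrix.orthogonalGroup (Fin n) ℝ))
    (h : ∀ g ∈ Γ, ∀ i j, ∃ z : ℤ, g.1 i j = z) : Finite Γ := by
  choose z hz using h
  have hb : ∀ g hg i j, z g hg i j ∈ Set.Icc (-1 : ℤ) 1 := by
    intro g hg i j
    have h1 := abs_le.mp (abs_entry_le g i j)
    rw [hz g hg i j] at h1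
    constructor
    · exact_mod_cast h1.1
    · exact_mod_cast h1.2
  have hfin : Finite (Set.Icc (-1 : ℤ) 1) := (Set.finite_Icc (-1 : ℤ) 1).to_subtype
  apply Finite.of_injective
    (fun g : Γ => fun i j => (⟨z g.1 g.2 i j, hb _ _ _ _⟩ : Set.Icc (-1 : ℤ) 1))
  intro g g' hgg
  apply Subtype.ext
  apply Subtype.ext
  ext i j
  have h1 := congrArg Subtype.val (congrFun (congrFun hgg i) j)
  change z g.1 g.2 i j = z g'.1 g'.2 i j at h1
  rw [hz g.1 g.2 i j, hz g'.1 g'.2 i j, h1]

theorem finite_closure {n : ℕ} (S : Set (Matrix.orthogonalGroup (Fin n) ℝ))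
    (h : ∀ g ∈ S, ∀ i j, ∃ z : ℤ, g.1 i j = z) : Finite (Subgroup.closure S) := by
  apply finite_of_int
  intro g hg
  induction hg using Subgroup.closure_induction with
  | mem x hx => exact h x hx
  | one =>
    intro i j
    by_cases hij : i = j
    · exact ⟨1, by subst hij; simp⟩
    · exact ⟨0, by simp [hij]⟩
  | mul x y _ _ hx hy =>
    intro i j
    choose a ha using hx
    choose b hb using hy
    refine ⟨∑ k, a i k * b k j, ?_⟩
    have : (x * y).1 = x.1 * y.1 := rfl
    rw [this, Matrix.mul_apply]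
    push_cast
    exact Finset.sum_congr rfl fun k _ => by rw [ha, hb]
  | inv x _ hx =>
    intro i j
    obtain ⟨z, hz⟩ := hx j i
    refine ⟨z, ?_⟩
    rw [← hz]
    have : (x⁻¹).1 = star x.1 := rfl
    rw [this, Matrix.star_apply]
    simp


/-! ### The two groups of order 16 in `O(4)` -/

theorem diag_mem (ε : Fin 4 → ℝ) (h : ∀ i, ε i * ε i = 1) :
    Matrix.diagonal ε ∈ Matrix.orthogonalGroup (Fin 4) ℝ := by
  rw [Matrix.mem_orthogonalGroup_iff, Matrix.diagonal_transpose, Matrix.diagonal_mul_diagonal]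
  simp only [h]
  exact Matrix.diagonal_one

theorem P_mem (e : Equiv.Perm (Fin 4)) : P e ∈ Matrix.orthogonalGroup (Fin 4) ℝ := by
  rw [Matrix.mem_orthogonalGroup_iff]
  ext i j
  rw [Matrix.mul_apply]
  simp only [Matrix.transpose_apply, P, Matrix.one_apply]
  rw [Finset.sum_eq_single (e i)]
  · simp
  · intro b _ hb; simp [hb]
  · intro h; exact absurd (Finset.mem_univ (e i)) h

/-- Signs of the reflection in the `k`-th coordinate. -/
def sg (k : Fin 4) : Fin 4 → ℝ := fun j => if j = k then -1 else 1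

/-- Signs of `diag(1, 1, -1, -1)`. -/
def st : Fin 4 → ℝ := fun j => if j = 2 ∨ j = 3 then -1 else 1

/-- Reflection in the `k`-th coordinate. -/
def dO (k : Fin 4) : Matrix.orthogonalGroup (Fin 4) ℝ :=
  ⟨Matrix.diagonal (sg k), diag_mem _ fun i => by unfold sg; split_ifs <;> norm_num⟩

/-- `diag(1, 1, -1, -1)`. -/
def tO : Matrix.orthogonalGroup (Fin 4) ℝ :=
  ⟨Matrix.diagonal st, diag_mem _ fun i => by unfold st; split_ifs <;> norm_num⟩

/-- Swap of the first two coordinates. -/
def sO : Matrix.orthogonalGroup (Fin 4) ℝ := ⟨P (Equiv.swap 0 1), P_mem _⟩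

/-- All diagonal sign matrices. -/
def G1 : Subgroup (Matrix.orthogonalGroup (Fin 4) ℝ) := Subgroup.closure (Set.range dO)

/-- The group `W(B₂) × {±1}` acting on `ℝ² ⊕ ℝ²`. -/
def G2 : Subgroup (Matrix.orthogonalGroup (Fin 4) ℝ) := Subgroup.closure {dO 0, tO, sO}

theorem int_diag (ε : Fin 4 → ℝ) (h : ∀ i, ∃ z : ℤ, ε i = z) (i j : Fin 4) :
    ∃ z : ℤ, Matrix.diagonal ε i j = z := by
  by_cases hij : i = j
  · subst hij
    obtain ⟨z, hz⟩ := h i
    exact ⟨z, by rw [Matrix.diagonal_apply_eq, hz]⟩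
  · exact ⟨0, by rw [Matrix.diagonal_apply_ne _ hij]; simp⟩

theorem int_dO (k i j : Fin 4) : ∃ z : ℤ, (dO k).1 i j = z := by
  apply int_diag
  intro i
  unfold sg
  split_ifs
  · exact ⟨-1, by norm_num⟩
  · exact ⟨1, by norm_num⟩

theorem int_tO (i j : Fin 4) : ∃ z : ℤ, (tO).1 i j = z := by
  apply int_diag
  intro i
  unfold st
  split_ifs
  · exact ⟨-1, by norm_num⟩
  · exact ⟨1, by norm_num⟩

theorem int_sO (i j : Fin 4) : ∃ z : ℤ, (sO).1 i j = z := by
  change ∃ z : ℤ, P (Equiv.swap 0 1) i j = z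
  unfold P
  split_ifs
  · exact ⟨1, by norm_num⟩
  · exact ⟨0, by norm_num⟩

theorem finite_G1 : Finite G1 := by
  apply finite_closure
  rintro g ⟨k, rfl⟩ i j
  exact int_dO k i j

theorem finite_G2 : Finite G2 := by
  apply finite_closure
  rintro g (rfl | rfl | rfl) i j
  · exact int_dO 0 i j
  · exact int_tO i j
  · exact int_sO i j

theorem diag_of_mem_G1 (g : Matrix.orthogonalGroup (Fin 4) ℝ) (hg : g ∈ G1) :
    ∀ i j, i ≠ j → g.1 i j = 0 := by
  unfold G1 at hg
  induction hg using Subgroup.closure_induction with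
  | mem x hx =>
    obtain ⟨k, rfl⟩ := hx
    intro i j hij
    exact Matrix.diagonal_apply_ne _ hij
  | one =>
    intro i j hij
    exact Matrix.one_apply_ne hij
  | mul x y _ _ hx hy =>
    intro i j hij
    have : (x * y).1 = x.1 * y.1 := rfl
    rw [this, Matrix.mul_apply]
    refine Finset.sum_eq_zero fun k _ => ?_
    by_cases hik : i = k
    · subst hik; rw [hy i j hij, mul_zero]
    · rw [hx i k hik, zero_mul]
  | inv x _ hx =>
    intro i j hij
    have : (x⁻¹).1 = star x.1 := rfl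
    rw [this, Matrix.star_apply, hx j i (Ne.symm hij), star_zero]

theorem sq_of_mem_G1 (g : Matrix.orthogonalGroup (Fin 4) ℝ) (hg : g ∈ G1) : g * g = 1 := by
  have h1 : g⁻¹ = g := by
    apply Subtype.ext
    have : (g⁻¹).1 = star g.1 := rfl
    rw [this]
    ext i j
    rw [Matrix.star_apply, star_trivial]
    by_cases hij : i = j
    · rw [hij]
    · rw [diag_of_mem_G1 g hg i j hij, diag_of_mem_G1 g hg j i (Ne.symm hij)]
  calc g * g = g⁻¹ * g := by rw [h1]
    _ = 1 := inv_mul_cancel g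

theorem not_conj : ¬ ∃ h : Matrix.orthogonalGroup (Fin 4) ℝ, ∀ g, g ∈ G2 ↔ h * g * h⁻¹ ∈ G1 := by
  rintro ⟨h, H⟩
  have h1 : dO 0 * sO ∈ G2 := by
    apply Subgroup.mul_mem
    · exact Subgroup.subset_closure (by simp)
    · exact Subgroup.subset_closure (by simp)
  have h2 := sq_of_mem_G1 _ ((H _).mp h1)
  have h3 : (dO 0 * sO) * (dO 0 * sO) = 1 := by
    have h4 : h * ((dO 0 * sO) * (dO 0 * sO)) * h⁻¹ = 1 := by
      rw [← h2]; group
    have h5 := conj_eq_one_iff.mp h4
    exact h5
  have h6 := congrArg Subtype.val h3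
  have h7 : ((dO 0 * sO) * (dO 0 * sO)).1 =
      (Matrix.diagonal (sg 0) * P (Equiv.swap 0 1)) * (Matrix.diagonal (sg 0) * P (Equiv.swap 0 1)) :=
    rfl
  rw [h7] at h6
  have h8 := congrFun (congrFun h6 0) 0
  rw [Matrix.mul_apply] at h8
  simp [Matrix.diagonal_mul, P, sg, Fin.sum_univ_four] at h8
  norm_num at h8

end Pool.Agent.Helper887.HarmInv
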