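import Mathlib

set_option autoImplicit false

namespace Pool.Agent.Helper887.HarmInv

open MvPolynomial

variable {n : ℕ}

/-- The Laplacian on real polynomials. -/
noncomputable def D (n : ℕ) : MvPolynomial (Fin n) ℝ →ₗ[ℝ] MvPolynomial (Fin n) ℝ :=
  ∑ i : Fin n, (pderiv i).toLinearMap ∘ₗ (pderiv i).toLinearMap

theorem D_apply (p : MvPolynomial (Fin n) ℝ) : D n p = ∑ i, pderiv i (pderiv i p) := by
  simp [D]

/-- The squared norm polynomial. -/
noncomputable def rsq (n : ℕ) : MvPolynomial (Fin n) ℝ := ∑ i : Fin n, X i * X i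

/-- Fischer pairing against `q`, as a linear functional. -/
noncomputable def Fl (q : MvPolynomial (Fin n) ℝ) : MvPolynomial (Fin n) ℝ →ₗ[ℝ] ℝ :=
  (basisMonomials (Fin n) ℝ).constr ℝ (fun s => ((∏ i, (s i).factorial : ℕ) : ℝ) * coeff s q)

theorem Fl_monomial (q : MvPolynomial (Fin n) ℝ) (s : Fin n →₀ ℕ) (c : ℝ) :
    Fl q (monomial s c) = c * (((∏ i, (s i).factorial : ℕ) : ℝ) * coeff s q) := by
  have h : monomial s c = c • (basisMonomials (Fin n) ℝ) s := by
    simp [smul_monomial]
  rw [h, map_smul, Fl, Module.Basis.constr_basis]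
  simp

theorem Fl_add (q q' p : MvPolynomial (Fin n) ℝ) : Fl (q + q') p = Fl q p + Fl q' p := by
  induction p using MvPolynomial.induction_on' with
  | add a b ha hb => simp only [map_add, ha, hb]; ring
  | monomial s c => simp only [Fl_monomial, coeff_add]; ring

theorem Fl_zero (p : MvPolynomial (Fin n) ℝ) : Fl 0 p = 0 := by
  induction p using MvPolynomial.induction_on' with
  | add a b ha hb => simp only [map_add, ha, hb]; ring
  | monomial s c => simp only [Fl_monomial, coeff_zero]; ring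

theorem Fl_sum {ι : Type*} (t : Finset ι) (q : ι → MvPolynomial (Fin n) ℝ)
    (p : MvPolynomial (Fin n) ℝ) : Fl (∑ i ∈ t, q i) p = ∑ i ∈ t, Fl (q i) p := by
  classical
  induction t using Finset.induction_on with
  | empty => simp [Fl_zero]
  | insert a t ha ih => rw [Finset.sum_insert ha, Finset.sum_insert ha, Fl_add, ih]

theorem Fl_X_mul (q : MvPolynomial (Fin n) ℝ) (i : Fin n) (p : MvPolynomial (Fin n) ℝ) :
    Fl q (X i * p) = Fl (pderiv i q) p := by
  induction p using MvPolynomial.induction_on' with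
  | add a b ha hb => simp only [mul_add, map_add, ha, hb]
  | monomial s c =>
    rw [X, monomial_mul, one_mul, Fl_monomial, Fl_monomial, coeff_pderiv, add_comm]
    have h : (∏ j, ((s + Finsupp.single i 1 : Fin n →₀ ℕ) j).factorial : ℕ) =
        (s i + 1) * ∏ j, (s j).factorial := by
      rw [← Finset.mul_prod_erase Finset.univ _ (Finset.mem_univ i),
        ← Finset.mul_prod_erase Finset.univ (fun j => (s j).factorial) (Finset.mem_univ i)]
      have h1 : ∏ j ∈ Finset.univ.erase i, ((s + Finsupp.single i 1 : Fin n →₀ ℕ) j).factorial =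
          ∏ j ∈ Finset.univ.erase i, (s j).factorial := by
        refine Finset.prod_congr rfl fun j hj => ?_
        have : j ≠ i := (Finset.mem_erase.mp hj).1
        simp [this.symm]
      rw [h1]
      simp [Nat.factorial_succ, mul_assoc]
    rw [h]
    push_cast
    ring

theorem Fl_self_eq_zero (p : MvPolynomial (Fin n) ℝ) (h : Fl p p = 0) : p = 0 := by
  have h1 : Fl p p = ∑ s ∈ p.support,
      coeff s p * (((∏ i, (s i).factorial : ℕ) : ℝ) * coeff s p) := by
    conv_lhs => rw [← support_sum_monomial_coeff p]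
    rw [support_sum_monomial_coeff]
    conv_lhs => enter [2]; rw [← support_sum_monomial_coeff p]
    rw [map_sum]
    exact Finset.sum_congr rfl fun s _ => Fl_monomial _ _ _
  rw [h1] at h
  have h2 : ∀ s ∈ p.support, 0 ≤ coeff s p * (((∏ i, (s i).factorial : ℕ) : ℝ) * coeff s p) := by
    intro s _
    have : (0 : ℝ) ≤ ((∏ i, (s i).factorial : ℕ) : ℝ) := Nat.cast_nonneg _
    nlinarith [mul_nonneg this (mul_self_nonneg (coeff s p))]
  rw [Finset.sum_eq_zero_iff_of_nonneg h2] at h
  ext s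
  rw [coeff_zero]
  by_contra hs
  have h3 := h s (mem_support_iff.mpr hs)
  have h4 : (0 : ℝ) < ((∏ i, (s i).factorial : ℕ) : ℝ) := by
    exact_mod_cast Finset.prod_pos fun i _ => Nat.factorial_pos _
  rcases mul_eq_zero.mp h3 with h5 | h5
  · exact hs h5
  · rcases mul_eq_zero.mp h5 with h6 | h6
    · exact h4.ne' h6
    · exact hs h6

theorem rsq_ne_zero (hn : 0 < n) : rsq n ≠ 0 := by
  intro h
  have h1 := congrArg (MvPolynomial.eval (fun _ : Fin n => (1 : ℝ))) h
  simp [rsq] at h1
  omega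

theorem D_rsq_mul_eq_zero (hn : 0 < n) (q : MvPolynomial (Fin n) ℝ)
    (h : D n (rsq n * q) = 0) : q = 0 := by
  have h1 : Fl (rsq n * q) (rsq n * q) = 0 := by
    have h2 : Fl (rsq n * q) (rsq n * q) = Fl (D n (rsq n * q)) q := by
      conv_lhs => enter [2]; rw [rsq, Finset.sum_mul]
      rw [map_sum, D_apply, Fl_sum]
      refine Finset.sum_congr rfl fun i _ => ?_
      rw [mul_assoc, Fl_X_mul, Fl_X_mul]
    rw [h2, h, Fl_zero]
  have h3 := Fl_self_eq_zero _ h1
  rcases mul_eq_zero.mp h3 with h4 | h4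
  · exact absurd h4 (rsq_ne_zero hn)
  · exact h4

theorem isHomogeneous_pderiv {p : MvPolynomial (Fin n) ℝ} {k : ℕ} (hp : p.IsHomogeneous (k + 1))
    (i : Fin n) : (pderiv i p).IsHomogeneous k := by
  intro s hs
  rw [coeff_pderiv] at hs
  have h1 : coeff (s + Finsupp.single i 1) p ≠ 0 := left_ne_zero_of_mul hs
  have h2 := hp h1
  rw [map_add] at h2
  simp only [Finsupp.weight_single, Pi.one_apply, smul_eq_mul, mul_one] at h2
  omega

theorem D_mem_homogeneous {p : MvPolynomial (Fin n) ℝ} {k : ℕ}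
    (hp : p ∈ homogeneousSubmodule (Fin n) ℝ (k + 2)) :
    D n p ∈ homogeneousSubmodule (Fin n) ℝ k := by
  rw [mem_homogeneousSubmodule] at hp ⊢
  rw [D_apply]
  exact IsHomogeneous.sum _ _ _ fun i _ => isHomogeneous_pderiv (isHomogeneous_pderiv hp i) i

theorem rsq_mul_mem_homogeneous {p : MvPolynomial (Fin n) ℝ} {k : ℕ}
    (hp : p ∈ homogeneousSubmodule (Fin n) ℝ k) :
    rsq n * p ∈ homogeneousSubmodule (Fin n) ℝ (k + 2) := by
  rw [mem_homogeneousSubmodule] at hp ⊢
  rw [add_comm]
  refine IsHomogeneous.mul ?_ hp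
  exact IsHomogeneous.sum _ _ _ fun i _ => (isHomogeneous_X ℝ i).mul (isHomogeneous_X ℝ i)

theorem D_eq_zero_of_homogeneous {p : MvPolynomial (Fin n) ℝ} {k : ℕ} (hk : k < 2)
    (hp : p ∈ homogeneousSubmodule (Fin n) ℝ k) : D n p = 0 := by
  rw [mem_homogeneousSubmodule] at hp
  rw [D_apply]
  refine Finset.sum_eq_zero fun i _ => ?_
  ext s
  rw [coeff_pderiv, coeff_pderiv, coeff_zero]
  have h : coeff (s + Finsupp.single i 1 + Finsupp.single i 1) p = 0 := by
    by_contra h1
    have h2 := hp h1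
    rw [map_add, map_add] at h2
    simp only [Finsupp.weight_single, Pi.one_apply, smul_eq_mul, mul_one] at h2
    omega
  rw [h, zero_mul, zero_mul]

theorem finite_homogeneous (k : ℕ) :
    FiniteDimensional ℝ (homogeneousSubmodule (Fin n) ℝ k) :=
  Module.Finite.iff_fg.mpr (homogeneousSubmodule_fg (σ := Fin n) (R := ℝ) k)

/-- Dimension count for harmonic elements of a family closed under the Laplacian and under
multiplication by the squared norm. -/
theorem finrank_harmonic (hn : 0 < n) (S : Submodule ℝ (MvPolynomial (Fin n) ℝ))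
    (hD : ∀ p ∈ S, D n p ∈ S) (hr : ∀ p ∈ S, rsq n * p ∈ S) (k : ℕ) :
    Module.finrank ℝ ↥(homogeneousSubmodule (Fin n) ℝ (k + 2) ⊓ LinearMap.ker (D n) ⊓ S) +
      Module.finrank ℝ ↥(homogeneousSubmodule (Fin n) ℝ k ⊓ S) =
      Module.finrank ℝ ↥(homogeneousSubmodule (Fin n) ℝ (k + 2) ⊓ S) := by
  set A := homogeneousSubmodule (Fin n) ℝ (k + 2) ⊓ S with hA
  set B := homogeneousSubmodule (Fin n) ℝ k ⊓ S with hB
  have _i1 := finite_homogeneous (n := n) (k + 2)
  have := finite_homogeneous (n := n) k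
  have fA : FiniteDimensional ℝ A := Submodule.finiteDimensional_of_le inf_le_left
  have fB : FiniteDimensional ℝ B := Submodule.finiteDimensional_of_le inf_le_left
  have h1 := LinearMap.finrank_range_add_finrank_ker ((D n).domRestrict A)
  have h2 : Module.finrank ℝ (LinearMap.ker ((D n).domRestrict A)) =
      Module.finrank ℝ ↥(homogeneousSubmodule (Fin n) ℝ (k + 2) ⊓ LinearMap.ker (D n) ⊓ S) := by
    have h3 : (LinearMap.ker ((D n).domRestrict A)).map A.subtype =
        homogeneousSubmodule (Fin n) ℝ (k + 2) ⊓ LinearMap.ker (D n) ⊓ S := by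
      ext p
      simp only [Submodule.mem_map, LinearMap.mem_ker, LinearMap.domRestrict_apply,
        Submodule.subtype_apply, Subtype.exists, exists_and_right, exists_eq_right,
        Submodule.mem_inf, hA]
      tauto
    rw [← h3]
    exact (Submodule.finrank_map_subtype_eq _ _).symm
  have h4 : Module.finrank ℝ (LinearMap.range ((D n).domRestrict A)) = Module.finrank ℝ B := by
    apply le_antisymm
    · apply Submodule.finrank_mono
      rintro _ ⟨⟨p, hp⟩, rfl⟩
      rw [hA, Submodule.mem_inf] at hp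
      rw [LinearMap.domRestrict_apply, hB, Submodule.mem_inf]
      exact ⟨D_mem_homogeneous hp.1, hD p hp.2⟩
    · let f : B →ₗ[ℝ] LinearMap.range ((D n).domRestrict A) :=
        { toFun := fun q => ⟨D n (rsq n * q.1), ⟨⟨rsq n * q.1,
            by
              have hq := Submodule.mem_inf.mp q.2
              exact Submodule.mem_inf.mpr ⟨rsq_mul_mem_homogeneous hq.1, hr _ hq.2⟩⟩, rfl⟩⟩
          map_add' := fun a b => by
            apply Subtype.ext
            simp [mul_add]
          map_smul' := fun c a => by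
            apply Subtype.ext
            simp }
      apply LinearMap.finrank_le_finrank_of_injective (f := f)
      rw [injective_iff_map_eq_zero]
      intro q hq
      have h5 : D n (rsq n * q.1) = 0 := congrArg Subtype.val hq
      exact Subtype.ext (D_rsq_mul_eq_zero hn q.1 h5)
  rw [h2, h4] at h1
  omega

theorem finrank_harmonic_low (S : Submodule ℝ (MvPolynomial (Fin n) ℝ)) (k : ℕ) (hk : k < 2) :
    homogeneousSubmodule (Fin n) ℝ k ⊓ LinearMap.ker (D n) ⊓ S =
      homogeneousSubmodule (Fin n) ℝ k ⊓ S := by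
  have h : homogeneousSubmodule (Fin n) ℝ k ≤ LinearMap.ker (D n) := fun p hp =>
    LinearMap.mem_ker.mpr (D_eq_zero_of_homogeneous hk hp)
  rw [inf_eq_left.mpr h]

/-- Equal dimensions of all homogeneous parts force equal dimensions of harmonic parts. -/
theorem finrank_harmonic_congr (hn : 0 < n) (S S' : Submodule ℝ (MvPolynomial (Fin n) ℝ))
    (hD : ∀ p ∈ S, D n p ∈ S) (hr : ∀ p ∈ S, rsq n * p ∈ S)
    (hD' : ∀ p ∈ S', D n p ∈ S') (hr' : ∀ p ∈ S', rsq n * p ∈ S')
    (h : ∀ k, Module.finrank ℝ ↥(homogeneousSubmodule (Fin n) ℝ k ⊓ S) =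
      Module.finrank ℝ ↥(homogeneousSubmodule (Fin n) ℝ k ⊓ S')) (k : ℕ) :
    Module.finrank ℝ ↥(homogeneousSubmodule (Fin n) ℝ k ⊓ LinearMap.ker (D n) ⊓ S) =
      Module.finrank ℝ ↥(homogeneousSubmodule (Fin n) ℝ k ⊓ LinearMap.ker (D n) ⊓ S') := by
  by_cases hk : k < 2
  · rw [finrank_harmonic_low S k hk, finrank_harmonic_low S' k hk, h k]
  · obtain ⟨m, rfl⟩ : ∃ m, k = m + 2 := ⟨k - 2, by omega⟩
    have h1 := finrank_harmonic hn S hD hr m
    have h2 := finrank_harmonic hn S' hD' hr' m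
    have h3 := h m
    have h4 := h (m + 2)
    omega

/-- Linear substitution by a matrix. -/
noncomputable def T (g : Matrix (Fin n) (Fin n) ℝ) :
    MvPolynomial (Fin n) ℝ →ₐ[ℝ] MvPolynomial (Fin n) ℝ :=
  aeval (fun i : Fin n => ∑ j : Fin n, C (g i j) * X j)

theorem T_X (g : Matrix (Fin n) (Fin n) ℝ) (i : Fin n) :
    T g (X i) = ∑ j : Fin n, C (g i j) * X j := by
  simp [T]

theorem T_mul (g h : Matrix (Fin n) (Fin n) ℝ) (p : MvPolynomial (Fin n) ℝ) :
    T h (T g p) = T (g * h) p := by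
  have : (T h).comp (T g) = T (g * h) := by
    apply MvPolynomial.algHom_ext
    intro i
    rw [AlgHom.comp_apply, T_X, T_X, map_sum]
    simp only [map_mul, T_X, Matrix.mul_apply, map_sum, Finset.sum_mul]
    rw [Finset.sum_comm]
    refine Finset.sum_congr rfl fun k _ => ?_
    have hC : T h (C (g i k)) = C (g i k) := (T h).commutes _
    rw [hC, Finset.mul_sum]
    refine Finset.sum_congr rfl fun j _ => ?_
    ring
  rw [← this]
  rfl

theorem T_one (p : MvPolynomial (Fin n) ℝ) : T (1 : Matrix (Fin n) (Fin n) ℝ) p = p := by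
  have : T (1 : Matrix (Fin n) (Fin n) ℝ) = AlgHom.id ℝ _ := by
    apply MvPolynomial.algHom_ext
    intro i
    rw [T_X]
    simp [Matrix.one_apply]
  rw [this]
  rfl

/-- The subspace of polynomials fixed by a matrix. -/
noncomputable def Fix (g : Matrix (Fin n) (Fin n) ℝ) : Submodule ℝ (MvPolynomial (Fin n) ℝ) :=
  LinearMap.ker ((aeval (fun i : Fin n => ∑ j : Fin n, C (g i j) * X j)).toLinearMap
    - LinearMap.id)

theorem mem_Fix (g : Matrix (Fin n) (Fin n) ℝ) (p : MvPolynomial (Fin n) ℝ) :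
    p ∈ Fix g ↔ T g p = p := by
  unfold Fix T
  rw [LinearMap.mem_ker, LinearMap.sub_apply, sub_eq_zero]
  rfl

/-- Invariants of a group of orthogonal matrices. -/
noncomputable def Inv (Γ : Subgroup (Matrix.orthogonalGroup (Fin n) ℝ)) :
    Submodule ℝ (MvPolynomial (Fin n) ℝ) := ⨅ g ∈ Γ, Fix g.1

theorem mem_Inv (Γ : Subgroup (Matrix.orthogonalGroup (Fin n) ℝ)) (p : MvPolynomial (Fin n) ℝ) :
    p ∈ Inv Γ ↔ ∀ g ∈ Γ, T g.1 p = p := by
  unfold Inv
  simp only [Submodule.mem_iInf, mem_Fix]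

theorem mem_Inv_closure (S : Set (Matrix.orthogonalGroup (Fin n) ℝ))
    (p : MvPolynomial (Fin n) ℝ) :
    p ∈ Inv (Subgroup.closure S) ↔ ∀ g ∈ S, T g.1 p = p := by
  rw [mem_Inv]
  constructor
  · exact fun h g hg => h g (Subgroup.subset_closure hg)
  · intro h g hg
    induction hg using Subgroup.closure_induction with
    | mem x hx => exact h x hx
    | one => exact T_one p
    | mul x y _ _ hx hy =>
      have : (x * y).1 = x.1 * y.1 := rfl
      rw [this, ← T_mul, hx, hy]
    | inv x _ hx =>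
      have h1 : T (x⁻¹).1 (T x.1 p) = p := by
        rw [T_mul]
        have : x.1 * (x⁻¹).1 = 1 := by
          have := congrArg Subtype.val (mul_inv_cancel x)
          exact this
        rw [this, T_one]
      rw [hx] at h1
      exact h1

theorem pderiv_T (g : Matrix (Fin n) (Fin n) ℝ) (i : Fin n) (p : MvPolynomial (Fin n) ℝ) :
    pderiv i (T g p) = ∑ j, C (g j i) * T g (pderiv j p) := by
  induction p using MvPolynomial.induction_on with
  | C a =>
    have : T g (C a) = C a := (T g).commutes a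
    rw [this]
    simp
  | add p q hp hq => simp only [map_add, hp, hq, mul_add, Finset.sum_add_distrib]
  | mul_X p m hp =>
    rw [map_mul, pderiv_mul, hp, T_X]
    have h1 : pderiv i (∑ j : Fin n, C (g m j) * X j : MvPolynomial (Fin n) ℝ) = C (g m i) := by
      rw [map_sum, Finset.sum_eq_single i]
      · rw [pderiv_C_mul, pderiv_X_self, mul_one]
      · intro b _ hb
        rw [pderiv_C_mul, pderiv_X_of_ne hb, mul_zero]
      · intro h; exact absurd (Finset.mem_univ i) h
    rw [h1]
    simp only [pderiv_mul, map_add, map_mul, mul_add, Finset.sum_add_distrib, T_X]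
    congr 1
    · rw [Finset.sum_mul]
      refine Finset.sum_congr rfl fun j _ => by ring
    · rw [Finset.sum_eq_single m]
      · rw [pderiv_X_self, map_one, mul_one]; ring
      · intro b _ hb
        rw [pderiv_X_of_ne (Ne.symm hb), map_zero, mul_zero, mul_zero]
      · intro h; exact absurd (Finset.mem_univ m) h

theorem D_T (g : Matrix.orthogonalGroup (Fin n) ℝ) (p : MvPolynomial (Fin n) ℝ) :
    D n (T g.1 p) = T g.1 (D n p) := by
  have hg : g.1 * (g.1).transpose = 1 := by
    have := (Matrix.mem_orthogonalGroup_iff (Fin n) ℝ).mp g.2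
    simpa using this
  have hg' : ∀ j k, ∑ i, g.1 j i * g.1 k i = if j = k then 1 else 0 := by
    intro j k
    have := congrFun (congrFun hg j) k
    simpa [Matrix.mul_apply, Matrix.one_apply] using this
  rw [D_apply, D_apply, map_sum]
  have h1 : ∀ i, pderiv i (pderiv i (T g.1 p)) =
      ∑ j, ∑ k, C (g.1 j i * g.1 k i) * T g.1 (pderiv k (pderiv j p)) := by
    intro i
    rw [pderiv_T, map_sum]
    refine Finset.sum_congr rfl fun j _ => ?_
    rw [pderiv_C_mul, pderiv_T, Finset.mul_sum]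
    refine Finset.sum_congr rfl fun k _ => ?_
    rw [C_mul]; ring
  simp only [h1]
  rw [Finset.sum_comm]
  refine Finset.sum_congr rfl fun j _ => ?_
  rw [Finset.sum_comm]
  have h2 : ∀ k, ∑ i, C (g.1 j i * g.1 k i) * T g.1 (pderiv k (pderiv j p)) =
      C (if j = k then 1 else 0) * T g.1 (pderiv k (pderiv j p)) := by
    intro k
    rw [← Finset.sum_mul, ← map_sum, hg']
  simp only [h2]
  rw [Finset.sum_eq_single j]
  · simp
  · intro b _ hb
    simp [Ne.symm hb]
  · intro h; exact absurd (Finset.mem_univ j) h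

theorem T_rsq (g : Matrix.orthogonalGroup (Fin n) ℝ) : T g.1 (rsq n) = rsq n := by
  have hg : (g.1).transpose * g.1 = 1 := by
    have := (Matrix.mem_orthogonalGroup_iff' (Fin n) ℝ).mp g.2
    simpa using this
  have hg' : ∀ j k, ∑ i, g.1 i j * g.1 i k = if j = k then 1 else 0 := by
    intro j k
    have := congrFun (congrFun hg j) k
    simpa [Matrix.mul_apply, Matrix.one_apply] using this
  have h1 : ∀ i, T g.1 (X i * X i) =
      ∑ j, ∑ k, C (g.1 i j * g.1 i k) * (X j * X k : MvPolynomial (Fin n) ℝ) := by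
    intro i
    rw [map_mul, T_X, Finset.sum_mul]
    refine Finset.sum_congr rfl fun j _ => ?_
    rw [Finset.mul_sum]
    refine Finset.sum_congr rfl fun k _ => ?_
    rw [C_mul]; ring
  have h2 : ∀ j k, ∑ i, C (g.1 i j * g.1 i k) * (X j * X k : MvPolynomial (Fin n) ℝ) =
      C (if j = k then 1 else 0) * (X j * X k : MvPolynomial (Fin n) ℝ) := by
    intro j k
    rw [← Finset.sum_mul, ← map_sum, hg']
  have h3 : T g.1 (rsq n) = ∑ i, T g.1 (X i * X i) := by
    rw [← map_sum]
    rfl
  rw [h3, Finset.sum_congr rfl (fun i _ => h1 i), Finset.sum_comm]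
  have h4 : rsq n = ∑ j, (X j * X j : MvPolynomial (Fin n) ℝ) := rfl
  rw [h4]
  refine Finset.sum_congr rfl fun j _ => ?_
  rw [Finset.sum_comm, Finset.sum_congr rfl (fun k _ => h2 j k), Finset.sum_eq_single j]
  · simp
  · intro b _ hb
    simp [Ne.symm hb]
  · intro h; exact absurd (Finset.mem_univ j) h

theorem D_mem_Inv (Γ : Subgroup (Matrix.orthogonalGroup (Fin n) ℝ)) :
    ∀ p ∈ Inv Γ, D n p ∈ Inv Γ := by
  intro p hp
  rw [mem_Inv] at hp ⊢
  intro g hg
  rw [← D_T, hp g hg]

theorem rsq_mul_mem_Inv (Γ : Subgroup (Matrix.orthogonalGroup (Fin n) ℝ)) :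
    ∀ p ∈ Inv Γ, rsq n * p ∈ Inv Γ := by
  intro p hp
  rw [mem_Inv] at hp ⊢
  intro g hg
  rw [map_mul, T_rsq, hp g hg]

/-- Isospectrality criterion: equal dimensions of invariant homogeneous polynomials. -/
theorem isospectral_of_invariants (hn : 0 < n) (Γ Γ' : Subgroup (Matrix.orthogonalGroup (Fin n) ℝ))
    (h : ∀ k, Module.finrank ℝ ↥(homogeneousSubmodule (Fin n) ℝ k ⊓ Inv Γ) =
      Module.finrank ℝ ↥(homogeneousSubmodule (Fin n) ℝ k ⊓ Inv Γ')) (k : ℕ) :
    Module.finrank ℝ ↥(homogeneousSubmodule (Fin n) ℝ k ⊓ LinearMap.ker (D n) ⊓ Inv Γ) =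
      Module.finrank ℝ ↥(homogeneousSubmodule (Fin n) ℝ k ⊓ LinearMap.ker (D n) ⊓ Inv Γ') :=
  finrank_harmonic_congr hn _ _ (D_mem_Inv Γ) (rsq_mul_mem_Inv Γ) (D_mem_Inv Γ')
    (rsq_mul_mem_Inv Γ') h k

end Pool.Agent.Helper887.HarmInv
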