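import Pool.Agent.Helper887.HarmEx

set_option autoImplicit false

namespace Pool.Agent.Helper887.HarmInv

open MvPolynomial

/-! ### Coefficient descriptions of the invariants -/

theorem prod_sg (k : Fin 4) (s : Fin 4 →₀ ℕ) : ∏ j, sg k j ^ s j = (-1 : ℝ) ^ s k := by
  rw [Finset.prod_eq_single k]
  · simp [sg]
  · intro b _ hb; simp [sg, hb]
  · intro h; exact absurd (Finset.mem_univ k) h

theorem prod_st (s : Fin 4 →₀ ℕ) : ∏ j, st j ^ s j = (-1 : ℝ) ^ (s 2 + s 3) := by
  rw [Fin.prod_univ_four]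
  simp [st, pow_add]

theorem fix_iff_coeff (ε : Fin 4 → ℝ) (f : (Fin 4 →₀ ℕ) → ℕ)
    (hf : ∀ s : Fin 4 →₀ ℕ, ∏ j, ε j ^ s j = (-1 : ℝ) ^ f s) (p : MvPolynomial (Fin 4) ℝ) :
    T (Matrix.diagonal ε) p = p ↔ ∀ s, ¬ Even (f s) → coeff s p = 0 := by
  constructor
  · intro h s hs
    have h1 := congrArg (coeff s) h
    rw [coeff_T_diag, hf, Odd.neg_one_pow (Nat.not_even_iff_odd.mp hs)] at h1
    linarith
  · intro h
    ext s
    rw [coeff_T_diag, hf]
    by_cases hs : Even (f s)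
    · rw [hs.neg_one_pow, one_mul]
    · rw [h s hs, mul_zero]

theorem fix_dO (k : Fin 4) (p : MvPolynomial (Fin 4) ℝ) :
    T (dO k).1 p = p ↔ ∀ s, ¬ Even (s k) → coeff s p = 0 :=
  fix_iff_coeff (sg k) (fun s => s k) (prod_sg k) p

theorem fix_tO (p : MvPolynomial (Fin 4) ℝ) :
    T (tO).1 p = p ↔ ∀ s, ¬ Even (s 2 + s 3) → coeff s p = 0 :=
  fix_iff_coeff st (fun s => s 2 + s 3) prod_st p

/-- The transposed exponent. -/
noncomputable def sw (s : Fin 4 →₀ ℕ) : Fin 4 →₀ ℕ := s.mapDomain (Equiv.swap (0 : Fin 4) 1)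

theorem sw_apply (s : Fin 4 →₀ ℕ) (i : Fin 4) : sw s i = s (Equiv.swap 0 1 i) := by
  unfold sw
  have h := Finsupp.mapDomain_apply (Equiv.swap (0 : Fin 4) 1).injective s (Equiv.swap 0 1 i)
  rwa [Equiv.swap_apply_self] at h

theorem sw0 (s : Fin 4 →₀ ℕ) : sw s 0 = s 1 := by rw [sw_apply]; rfl
theorem sw1 (s : Fin 4 →₀ ℕ) : sw s 1 = s 0 := by rw [sw_apply]; rfl
theorem sw2 (s : Fin 4 →₀ ℕ) : sw s 2 = s 2 := by rw [sw_apply]; rfl
theorem sw3 (s : Fin 4 →₀ ℕ) : sw s 3 = s 3 := by rw [sw_apply]; rfl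

theorem fext (s t : Fin 4 →₀ ℕ) (h0 : s 0 = t 0) (h1 : s 1 = t 1) (h2 : s 2 = t 2)
    (h3 : s 3 = t 3) : s = t := by
  ext i
  fin_cases i
  · exact h0
  · exact h1
  · exact h2
  · exact h3

theorem sw_sw (s : Fin 4 →₀ ℕ) : sw (sw s) = s := by
  apply fext <;> simp only [sw0, sw1, sw2, sw3]

theorem fix_sO (p : MvPolynomial (Fin 4) ℝ) :
    T (sO).1 p = p ↔ ∀ s, coeff (sw s) p = coeff s p := by
  have key : ∀ s, coeff (sw s) (T (sO).1 p) = coeff s p := fun s => coeff_T_P _ s p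
  constructor
  · intro h s
    have h1 := key s
    rwa [h] at h1
  · intro h
    ext s
    have h1 := key (sw s)
    rw [sw_sw] at h1
    rw [h1, h]

theorem mem_Inv_G1 (p : MvPolynomial (Fin 4) ℝ) :
    p ∈ Inv G1 ↔ ∀ s, ¬ (∀ k, Even (s k)) → coeff s p = 0 := by
  unfold G1
  rw [mem_Inv_closure]
  constructor
  · intro h s hs
    push Not at hs
    obtain ⟨k, hk⟩ := hs
    exact (fix_dO k p).mp (h _ ⟨k, rfl⟩) s hk
  · rintro h g ⟨k, rfl⟩
    rw [fix_dO]
    intro s hs
    exact h s fun h' => hs (h' k)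

theorem mem_Inv_G2 (p : MvPolynomial (Fin 4) ℝ) :
    p ∈ Inv G2 ↔ (∀ s, ¬ (Even (s 0) ∧ Even (s 1) ∧ Even (s 2 + s 3)) → coeff s p = 0) ∧
      ∀ s, coeff (sw s) p = coeff s p := by
  unfold G2
  rw [mem_Inv_closure]
  constructor
  · intro h
    have hd := (fix_dO 0 p).mp (h _ (by simp))
    have ht := (fix_tO p).mp (h _ (by simp))
    have hs := (fix_sO p).mp (h _ (by simp))
    refine ⟨?_, hs⟩
    intro s hns
    by_cases h0 : Even (s 0)
    · by_cases h1 : Even (s 1)
      · apply ht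
        exact fun h2 => hns ⟨h0, h1, h2⟩
      · rw [← hs]
        apply hd
        rwa [sw0]
    · exact hd s h0
  · rintro ⟨h1, h2⟩ g (rfl | rfl | rfl)
    · rw [fix_dO]
      intro s hs
      exact h1 s fun h => hs h.1
    · rw [fix_tO]
      intro s hs
      exact h1 s fun h => hs h.2.2
    · rw [fix_sO]
      exact h2

/-! ### Counting -/

/-- Total degree of an exponent. -/
theorem mem_homog (k : ℕ) (p : MvPolynomial (Fin 4) ℝ) :
    p ∈ homogeneousSubmodule (Fin 4) ℝ k ↔ ∀ s, ¬ (s 0 + s 1 + s 2 + s 3 = k) → coeff s p = 0 := by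
  rw [mem_homogeneousSubmodule]
  constructor
  · intro h s hs
    by_contra hc
    have h1 := h hc
    rw [Finsupp.weight_apply, Finsupp.sum_fintype _ _ (by simp), Fin.sum_univ_four] at h1
    apply hs
    simpa using h1
  · intro h s hs
    rw [Finsupp.weight_apply, Finsupp.sum_fintype _ _ (by simp), Fin.sum_univ_four]
    by_contra hc
    apply hs
    apply h
    simpa using hc

/-- The common index set. -/
def J (k : ℕ) : Type := {i : Fin 4 → Fin (k + 1) // 2 * ((i 0 : ℕ) + i 1 + i 2 + i 3) = k}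

instance (k : ℕ) : Finite (J k) := by unfold J; infer_instance

/-- Exponent from its four entries. -/
noncomputable def ex (a b c d : ℕ) : Fin 4 →₀ ℕ := Finsupp.equivFunOnFinite.symm ![a, b, c, d]

@[simp] theorem ex0 (a b c d : ℕ) : ex a b c d 0 = a := rfl
@[simp] theorem ex1 (a b c d : ℕ) : ex a b c d 1 = b := rfl
@[simp] theorem ex2 (a b c d : ℕ) : ex a b c d 2 = c := rfl
@[simp] theorem ex3 (a b c d : ℕ) : ex a b c d 3 = d := rfl

theorem ex_inj {a b c d a' b' c' d' : ℕ} (h : ex a b c d = ex a' b' c' d') :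
    a = a' ∧ b = b' ∧ c = c' ∧ d = d' :=
  ⟨congrArg (fun s => s 0) h, congrArg (fun s => s 1) h, congrArg (fun s => s 2) h,
    congrArg (fun s => s 3) h⟩

theorem jext {k : ℕ} (i j : J k) (h0 : (i.1 0 : ℕ) = j.1 0) (h1 : (i.1 1 : ℕ) = j.1 1)
    (h2 : (i.1 2 : ℕ) = j.1 2) (h3 : (i.1 3 : ℕ) = j.1 3) : i = j := by
  apply Subtype.ext
  funext m
  apply Fin.ext
  fin_cases m
  · exact h0
  · exact h1
  · exact h2
  · exact h3

/-- An index from its four entries. -/
def mk {k : ℕ} (a b c d : ℕ) (h : 2 * (a + b + c + d) = k) : J k :=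
  ⟨![⟨a, by omega⟩, ⟨b, by omega⟩, ⟨c, by omega⟩, ⟨d, by omega⟩], h⟩

/-- First family of exponents. -/
noncomputable def φ1 {k : ℕ} (i : J k) : Fin 4 →₀ ℕ :=
  ex (2 * (i.1 0 : ℕ)) (2 * (i.1 1 : ℕ)) (2 * (i.1 2 : ℕ)) (2 * (i.1 3 : ℕ))

/-- Second family of exponents. -/
noncomputable def φ2 {k : ℕ} (i : J k) : Fin 4 →₀ ℕ :=
  ex (2 * ((i.1 0 : ℕ) / 2)) (2 * ((i.1 0 : ℕ) / 2) + 2 * (i.1 1 : ℕ))
    (2 * (i.1 2 : ℕ) + (i.1 0 : ℕ) % 2) (2 * (i.1 3 : ℕ) + (i.1 0 : ℕ) % 2)

theorem φ1_inj {k : ℕ} (i j : J k) (h : φ1 i = φ1 j) : i = j := by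
  obtain ⟨h0, h1, h2, h3⟩ := ex_inj h
  apply jext <;> omega

theorem φ2_inj {k : ℕ} (i j : J k) (h : φ2 i = φ2 j) : i = j := by
  obtain ⟨h0, h1, h2, h3⟩ := ex_inj h
  apply jext <;> omega

theorem finrank_G1 (k : ℕ) :
    Module.finrank ℝ ↥(homogeneousSubmodule (Fin 4) ℝ k ⊓ Inv G1) = Nat.card (J k) := by
  classical
  apply finrank_eq_card _ φ1 _ (fun i => monomial (φ1 i) 1)
  · intro i
    rw [Submodule.mem_inf, mem_homog, mem_Inv_G1]
    constructor
    · intro s hs
      rw [coeff_monomial, if_neg]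
      rintro rfl
      apply hs
      have := i.2
      simp only [φ1, ex0, ex1, ex2, ex3]
      omega
    · intro s hs
      rw [coeff_monomial, if_neg]
      rintro rfl
      apply hs
      intro m
      fin_cases m
      · exact even_two_mul _
      · exact even_two_mul _
      · exact even_two_mul _
      · exact even_two_mul _
  · intro i
    rw [coeff_monomial, if_pos rfl]
    exact one_ne_zero
  · intro i j hij
    rw [coeff_monomial, if_neg]
    exact fun h => hij (φ1_inj _ _ h).symm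
  · intro p hp h
    rw [Submodule.mem_inf, mem_homog, mem_Inv_G1] at hp
    obtain ⟨hp1, hp2⟩ := hp
    ext s
    rw [coeff_zero]
    by_cases h1 : s 0 + s 1 + s 2 + s 3 = k
    · by_cases h2 : ∀ m, Even (s m)
      · have e0 := Nat.even_iff.mp (h2 0)
        have e1 := Nat.even_iff.mp (h2 1)
        have e2 := Nat.even_iff.mp (h2 2)
        have e3 := Nat.even_iff.mp (h2 3)
        have h3 := h (mk (s 0 / 2) (s 1 / 2) (s 2 / 2) (s 3 / 2) (by omega))
        have h4 : φ1 (mk (s 0 / 2) (s 1 / 2) (s 2 / 2) (s 3 / 2) (by omega) : J k) = s := by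
          apply fext
          · change 2 * (s 0 / 2) = s 0; omega
          · change 2 * (s 1 / 2) = s 1; omega
          · change 2 * (s 2 / 2) = s 2; omega
          · change 2 * (s 3 / 2) = s 3; omega
        rwa [h4] at h3
      · exact hp2 s h2
    · exact hp1 s h1

theorem finrank_G2 (k : ℕ) :
    Module.finrank ℝ ↥(homogeneousSubmodule (Fin 4) ℝ k ⊓ Inv G2) = Nat.card (J k) := by
  classical
  apply finrank_eq_card _ φ2 _ (fun i => monomial (φ2 i) 1 + monomial (sw (φ2 i)) 1)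
  · intro i
    have hi := i.2
    rw [Submodule.mem_inf, mem_homog, mem_Inv_G2]
    refine ⟨?_, ?_, ?_⟩
    · intro s hs
      rw [coeff_add, coeff_monomial, coeff_monomial, if_neg, if_neg, add_zero]
      · rintro rfl
        apply hs
        rw [sw0, sw1, sw2, sw3]
        simp only [φ2, ex0, ex1, ex2, ex3]
        omega
      · rintro rfl
        apply hs
        simp only [φ2, ex0, ex1, ex2, ex3]
        omega
    · intro s hs
      rw [coeff_add, coeff_monomial, coeff_monomial, if_neg, if_neg, add_zero]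
      · rintro rfl
        apply hs
        rw [sw0, sw1, sw2, sw3]
        simp only [φ2, ex0, ex1, ex2, ex3, Nat.even_iff]
        omega
      · rintro rfl
        apply hs
        simp only [φ2, ex0, ex1, ex2, ex3, Nat.even_iff]
        omega
    · intro s
      rw [coeff_add, coeff_add, coeff_monomial, coeff_monomial, coeff_monomial, coeff_monomial]
      have e1 : (φ2 i = sw s) ↔ (sw (φ2 i) = s) := by
        constructor
        · intro h; rw [h, sw_sw]
        · intro h; rw [← h, sw_sw]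
      have e2 : (sw (φ2 i) = sw s) ↔ (φ2 i = s) := by
        constructor
        · intro h; rw [← sw_sw (φ2 i), h, sw_sw]
        · intro h; rw [h]
      simp only [e1, e2]
      exact add_comm _ _
  · intro i
    rw [coeff_add, coeff_monomial, coeff_monomial, if_pos rfl]
    split_ifs <;> norm_num
  · intro i j hij
    rw [coeff_add, coeff_monomial, coeff_monomial, if_neg, if_neg, add_zero]
    · intro h
      apply hij
      have h0 : sw (φ2 i) 0 = φ2 j 0 := by rw [h]
      have h1 : sw (φ2 i) 1 = φ2 j 1 := by rw [h]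
      have h2 : sw (φ2 i) 2 = φ2 j 2 := by rw [h]
      have h3 : sw (φ2 i) 3 = φ2 j 3 := by rw [h]
      rw [sw0] at h0
      rw [sw1] at h1
      rw [sw2] at h2
      rw [sw3] at h3
      simp only [φ2, ex0, ex1, ex2, ex3] at h0 h1 h2 h3
      apply jext <;> omega
    · exact fun h => hij (φ2_inj _ _ h).symm
  · intro p hp h
    rw [Submodule.mem_inf, mem_homog, mem_Inv_G2] at hp
    obtain ⟨hp1, hp2, hp3⟩ := hp
    have main : ∀ s : Fin 4 →₀ ℕ, s 0 ≤ s 1 → coeff s p = 0 := by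
      intro s hle
      by_cases h1 : s 0 + s 1 + s 2 + s 3 = k
      · by_cases h2 : Even (s 0) ∧ Even (s 1) ∧ Even (s 2 + s 3)
        · obtain ⟨e0, e1, e2⟩ := h2
          rw [Nat.even_iff] at e0 e1 e2
          have h3 := h (mk (s 0 + s 2 % 2) ((s 1 - s 0) / 2) (s 2 / 2) (s 3 / 2) (by omega))
          have h4 : φ2 (mk (s 0 + s 2 % 2) ((s 1 - s 0) / 2) (s 2 / 2) (s 3 / 2) (by omega) :
              J k) = s := by
            apply fext
            · change 2 * ((s 0 + s 2 % 2) / 2) = s 0; omega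
            · change 2 * ((s 0 + s 2 % 2) / 2) + 2 * ((s 1 - s 0) / 2) = s 1; omega
            · change 2 * (s 2 / 2) + (s 0 + s 2 % 2) % 2 = s 2; omega
            · change 2 * (s 3 / 2) + (s 0 + s 2 % 2) % 2 = s 3; omega
          rwa [h4] at h3
        · exact hp2 s h2
      · exact hp1 s h1
    ext s
    rw [coeff_zero]
    by_cases hle : s 0 ≤ s 1
    · exact main s hle
    · rw [← hp3]
      apply main
      rw [sw0, sw1]
      omega

theorem main_isospectral (k : ℕ) :
    Module.finrank ℝ ↥(homogeneousSubmodule (Fin 4) ℝ k ⊓ LinearMap.ker (D 4) ⊓ Inv G2) =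
      Module.finrank ℝ ↥(homogeneousSubmodule (Fin 4) ℝ k ⊓ LinearMap.ker (D 4) ⊓ Inv G1) :=
  isospectral_of_invariants (by norm_num) G2 G1 (fun k => by rw [finrank_G1, finrank_G2]) k

end Pool.Agent.Helper887.HarmInv
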